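import Pool.Agent.Y80.KM.ADefs

set_option autoImplicit false

/-! Universal properties of the free alternative and the free Jordan algebra. -/

namespace Pool.Agent.Y681.KM

open Pool.Agent.Y80.KM

universe u

section general

variable {k : Type u} [Field k] {d : ℕ}

theorem of_eq (i : Fin d) : (FreeNonUnitalNonAssocAlgebra.of k i : NF k d) =
    MonoidAlgebra.single (FreeMagma.of i) 1 := rfl

/-- The universal property of the quotient algebra. -/
theorem quot_univ (R : Set (NF k d)) {B : Type u} [NonUnitalNonAssocRing B] [Module k B]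
    [IsScalarTower k B B] [SMulCommClass k B B]
    (hB : ∀ ψ : NF k d →ₙₐ[k] B, ∀ r ∈ R, ψ r = 0) (f : Fin d → B) :
    ∃! φ : QAlg R →ₙₐ[k] B, ∀ i, φ (qmk R (MonoidAlgebra.single (FreeMagma.of i) 1)) = f i := by
  let ψ : NF k d →ₙₐ[k] B := FreeNonUnitalNonAssocAlgebra.lift k f
  have hψ : ∀ i, ψ (MonoidAlgebra.single (FreeMagma.of i) 1) = f i := fun i =>
    FreeNonUnitalNonAssocAlgebra.lift_of_apply (R := k) f i
  let ψl : NF k d →ₗ[k] B := (ψ : NF k d →ₗ[k] B)
  have hψl : ∀ x, ψl x = ψ x := fun x => rfl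
  have hker : idealOf R ≤ LinearMap.ker ψl := by
    apply idealOf_le
    · intro r hr
      exact hB ψ r hr
    · intro a x hx
      rw [LinearMap.mem_ker, hψl] at hx
      constructor
      · rw [LinearMap.mem_ker, hψl, map_mul, hx, mul_zero]
      · rw [LinearMap.mem_ker, hψl, map_mul, hx, zero_mul]
  let φl : QAlg R →ₗ[k] B := (idealOf R).liftQ ψl hker
  have hφl : ∀ x, φl (qmk R x) = ψ x := fun x => rfl
  let φ : QAlg R →ₙₐ[k] B :=
    { toFun := φl
      map_smul' := fun c x => by
        show φl (c • x) = c • φl x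
        exact map_smul φl c x
      map_zero' := map_zero φl
      map_add' := map_add φl
      map_mul' := fun x y => by
        obtain ⟨x, rfl⟩ := qmk_surjective R x
        obtain ⟨y, rfl⟩ := qmk_surjective R y
        show φl (qmk R x * qmk R y) = φl (qmk R x) * φl (qmk R y)
        rw [← qmk_mul, hφl, hφl, hφl, map_mul] }
  have hφ : ∀ x, φ (qmk R x) = ψ x := fun x => rfl
  refine ⟨φ, fun i => by rw [hφ, hψ], ?_⟩
  intro φ' hφ'
  let χ : NF k d →ₙₐ[k] B :=
    { toFun := fun x => φ' (qmk R x)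
      map_smul' := fun c x => by
        show φ' (qmk R (c • x)) = c • φ' (qmk R x)
        rw [map_smul, map_smul]
      map_zero' := by
        show φ' (qmk R 0) = 0
        rw [map_zero, map_zero]
      map_add' := fun x y => by
        show φ' (qmk R (x + y)) = φ' (qmk R x) + φ' (qmk R y)
        rw [map_add, map_add]
      map_mul' := fun x y => by
        show φ' (qmk R (x * y)) = φ' (qmk R x) * φ' (qmk R y)
        rw [qmk_mul, map_mul] }
  have hχ : χ = ψ := by
    apply FreeNonUnitalNonAssocAlgebra.hom_ext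
    intro i
    rw [of_eq, hψ]
    exact hφ' i
  refine NonUnitalAlgHom.ext fun x => ?_
  obtain ⟨x, rfl⟩ := qmk_surjective R x
  rw [hφ, ← hχ]
  rfl

end general

theorem freeAlt_isFree (k : Type u) [Field k] (d : ℕ) : IsFreeAlt k (fun i : Fin d =>
    qmk (altRel k d) (MonoidAlgebra.single (FreeMagma.of i) 1)) := by
  refine ⟨fun p q => ⟨alt_left p q, alt_right p q⟩, ?_⟩
  intro B _ _ _ _ hB f
  apply quot_univ
  rintro ψ r ⟨a, b, rfl | rfl⟩
  · rw [map_sub, map_mul, map_mul, map_mul, map_mul, (hB (ψ a) (ψ b)).1, sub_self]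
  · rw [map_sub, map_mul, map_mul, map_mul, map_mul, (hB (ψ a) (ψ b)).2, sub_self]

theorem freeJord_isFree (k : Type u) [Field k] (d : ℕ) : IsFreeJord k (fun i : Fin d =>
    qmk (jordRel k d) (MonoidAlgebra.single (FreeMagma.of i) 1)) := by
  refine ⟨fun p q => ⟨jord_comm p q, jord_id p q⟩, ?_⟩
  intro B _ _ _ _ hB f
  apply quot_univ
  rintro ψ r ⟨a, b, rfl | rfl⟩
  · rw [map_sub, map_mul, map_mul, (hB (ψ a) (ψ b)).1, sub_self]
  · rw [map_sub, map_mul, map_mul, map_mul, map_mul, map_mul, map_mul, (hB (ψ a) (ψ b)).2,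
      sub_self]

/-- Two algebras with the same universal property are isomorphic. -/
theorem equiv_of_hom {k : Type u} [Field k] {F A : Type u} [NonUnitalNonAssocRing F] [Module k F]
    [NonUnitalNonAssocRing A] [Module k A] (φ : F →ₙₐ[k] A) (ψ : A →ₙₐ[k] F)
    (h1 : ∀ a, ψ (φ a) = a) (h2 : ∀ a, φ (ψ a) = a) :
    ∃ φ : F ≃ₗ[k] A, ∀ a b, φ (a * b) = φ a * φ b := by
  refine ⟨{ toFun := φ, invFun := ψ, map_add' := map_add φ,
            map_smul' := fun c x => by simpa using map_smul φ c x,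
            left_inv := h1, right_inv := h2 }, fun a b => ?_⟩
  exact map_mul φ a b

theorem alt_equiv {k A : Type u} [Field k] [NonUnitalNonAssocRing A] [Module k A]
    [IsScalarTower k A A] [SMulCommClass k A A] {d : ℕ} {x : Fin d → A} (hx : IsFreeAlt k x) :
    ∃ φ : FreeAlt k d ≃ₗ[k] A, ∀ a b, φ (a * b) = φ a * φ b := by
  have hF := freeAlt_isFree k d
  obtain ⟨φ, hφ, -⟩ := hF.2 A hx.1 x
  obtain ⟨ψ, hψ, -⟩ := hx.2 (FreeAlt k d) hF.1 (fun i : Fin d =>
    qmk (altRel k d) (MonoidAlgebra.single (FreeMagma.of i) 1))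
  refine equiv_of_hom φ ψ ?_ ?_
  · have h := (hF.2 (FreeAlt k d) hF.1 (fun i : Fin d =>
      qmk (altRel k d) (MonoidAlgebra.single (FreeMagma.of i) 1))).unique
      (y₁ := ψ.comp φ) (y₂ := NonUnitalAlgHom.id k _)
      (fun i => by
        show ψ (φ _) = _
        rw [hφ i, hψ i])
      (fun i => rfl)
    intro a
    exact DFunLike.congr_fun h a
  · have h := (hx.2 A hx.1 x).unique (y₁ := φ.comp ψ) (y₂ := NonUnitalAlgHom.id k _)
      (fun i => by
        show φ (ψ _) = _
        rw [hψ i, hφ i])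
      (fun i => rfl)
    intro a
    exact DFunLike.congr_fun h a

theorem jord_equiv {k A : Type u} [Field k] [NonUnitalNonAssocRing A] [Module k A]
    [IsScalarTower k A A] [SMulCommClass k A A] {d : ℕ} {x : Fin d → A} (hx : IsFreeJord k x) :
    ∃ φ : FreeJord k d ≃ₗ[k] A, ∀ a b, φ (a * b) = φ a * φ b := by
  have hF := freeJord_isFree k d
  obtain ⟨φ, hφ, -⟩ := hF.2 A hx.1 x
  obtain ⟨ψ, hψ, -⟩ := hx.2 (FreeJord k d) hF.1 (fun i : Fin d =>
    qmk (jordRel k d) (MonoidAlgebra.single (FreeMagma.of i) 1))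
  refine equiv_of_hom φ ψ ?_ ?_
  · have h := (hF.2 (FreeJord k d) hF.1 (fun i : Fin d =>
      qmk (jordRel k d) (MonoidAlgebra.single (FreeMagma.of i) 1))).unique
      (y₁ := ψ.comp φ) (y₂ := NonUnitalAlgHom.id k _)
      (fun i => by
        show ψ (φ _) = _
        rw [hφ i, hψ i])
      (fun i => rfl)
    intro a
    exact DFunLike.congr_fun h a
  · have h := (hx.2 A hx.1 x).unique (y₁ := φ.comp ψ) (y₂ := NonUnitalAlgHom.id k _)
      (fun i => by
        show φ (ψ _) = _
        rw [hψ i, hφ i])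
      (fun i => rfl)
    intro a
    exact DFunLike.congr_fun h a

end Pool.Agent.Y681.KM
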